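import Pool.Agent.Helper75.OE.GoalsB

/-!
# Project OE (MP_fc0446_an): packets AT and THRU (helper57)

The states of a run.
-/

namespace Pool.Agent.Helper57.OE

open Pool.Agent.Helper73.OE Pool.Agent.Helper73.OE.Sys Pool.Agent.Helper75.OE

section

variable {H S L : Type} [Group H] (X : Sys H S L) (O : Edges H S) (f : Cfg H S L)

theorem at_onRun {v : H} {p : S} {y : L} {z : H} {p' : S} {y' : L}
    (h : At X O f v p y z p' y') : X.OnRun O f v p y z := by
  induction h with
  | here v p y => exact OnRun.here v p y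
  | step v p y z p' y' ho _ ih => exact OnRun.step v p y z ho ih

theorem onRun_at {v : H} {p : S} {y : L} {z : H} (h : X.OnRun O f v p y z) :
    ∃ p' y', At X O f v p y z p' y' := by
  induction h with
  | here v p y => exact ⟨p, y, At.here v p y⟩
  | step v p y z ho _ ih =>
    obtain ⟨p', y', h⟩ := ih
    exact ⟨p', y', At.step v p y z p' y' ho h⟩

theorem at_next {v : H} {p : S} {y : L} {z : H} {p' : S} {y' : L}
    (h : At X O f v p y z p' y') (hO : O z ((f z).symm y')) :
    At X O f v p y (X.nb z ((f z).symm y')) (X.bar ((f z).symm y')) (X.tau (f z p')) := by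
  induction h with
  | here v p y => exact At.step v p y _ _ _ hO (At.here _ _ _)
  | step v p y z p' y' ho _ ih => exact At.step v p y _ _ _ ho (ih hO)

theorem at_prev {v : H} {p : S} {y : L} {z : H} {p' : S} {y' : L}
    (h : At X O f v p y z p' y') : (z = v ∧ p' = p ∧ y' = y) ∨
      ∃ z1 p1 y1, At X O f v p y z1 p1 y1 ∧ O z1 ((f z1).symm y1) ∧
        z = X.nb z1 ((f z1).symm y1) ∧ p' = X.bar ((f z1).symm y1) ∧
        y' = X.tau (f z1 p1) := by
  induction h with
  | here v p y => exact Or.inl ⟨rfl, rfl, rfl⟩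
  | step v p y z p' y' ho _ ih =>
    right
    rcases ih with ⟨h1, h2, h3⟩ | ⟨z1, p1, y1, h1, h2, h3, h4, h5⟩
    · exact ⟨v, p, y, At.here v p y, ho, h1, h2, h3⟩
    · exact ⟨z1, p1, y1, At.step v p y z1 p1 y1 ho h1, h2, h3, h4, h5⟩

theorem tau_inj {a b : L} (h : X.tau a = X.tau b) : a = b := by
  rw [← X.tau_tau a, h, X.tau_tau]

theorem at_ne (hM : X.MA O Set.univ f) {v : H} {p : S} {y : L} {z : H} {p' : S} {y' : L}
    (h : At X O f v p y z p' y') : y ≠ f v p → y' ≠ f z p' := by
  induction h with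
  | here v p y => exact id
  | step v p y z p' y' ho _ ih =>
    intro hy
    apply ih
    intro he
    have hm : X.Mt f v ((f v).symm y) := hM v _ (Set.mem_univ _) (Set.mem_univ _) ho
    unfold Mt at hm
    rw [← he, Equiv.apply_symm_apply] at hm
    exact hy (tau_inj X hm).symm

theorem at_end {v : H} {p : S} {y : L} {z1 : H} {p1 : S} {y1 : L}
    (h1 : At X O f v p y z1 p1 y1) (c1 : ¬ O z1 ((f z1).symm y1)) :
    ∀ {z2 : H} {p2 : S} {y2 : L}, At X O f v p y z2 p2 y2 →
      ¬ O z2 ((f z2).symm y2) → z1 = z2 := by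
  induction h1 with
  | here v p y =>
    intro z2 p2 y2 h2 c2
    cases h2 with
    | here => rfl
    | step _ _ _ _ _ _ ho _ => exact absurd ho c1
  | step v p y z p' y' ho _ ih =>
    intro z2 p2 y2 h2 c2
    cases h2 with
    | here => exact absurd ho c2
    | step _ _ _ _ _ _ _ h => exact ih c1 h c2

theorem at_stop {v : H} {p : S} {y : L} {z : H} {p' : S} {y' : L} (hp : ¬ O v p)
    (hy : y = f v p) (h : At X O f v p y z p' y') : z = v := by
  cases h with
  | here => rfl
  | step _ _ _ _ _ _ ho _ =>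
    exfalso
    apply hp
    rw [hy, Equiv.symm_apply_apply] at ho
    exact ho

end

/-- PACKET AT. -/
theorem at_ : B_AT := by
  intro H S L _ X O f v p y
  refine ⟨fun z => ⟨onRun_at X O f, ?_⟩, fun z p' y' => at_next X O f,
    fun z p' y' => at_prev X O f, fun hM hy z p' y' h => at_ne X O f hM h hy,
    fun z1 p1 y1 z2 p2 y2 h1 c1 h2 c2 => at_end X O f h1 c1 h2 c2,
    fun hp hy z p' y' h => at_stop X O f hp hy h⟩
  rintro ⟨p', y', h⟩
  exact at_onRun X O f h

end Pool.Agent.Helper57.OE
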