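import Pool.Agent.Helper75.OE.GoalsB

/-!
# Project OE (MP_fc0446_an): packet RINV (helper57)

Invariants of a history.
-/

namespace Pool.Agent.Helper57.OE

open Pool.Agent.Helper73.OE Pool.Agent.Helper73.OE.Sys Pool.Agent.Helper75.OE

section

variable {H S L : Type} [Group H] (X : Sys H S L)

theorem sym_addE {O : Edges H S} (hS : X.Sym O) (e : H × S) : X.Sym (X.addE O e) := by
  have key : ∀ v s, X.addE O e v s → X.addE O e (X.nb v s) (X.bar s) := by
    intro v s h
    rcases h with h | h | h
    · exact Or.inl ((hS v s).1 h)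
    · refine Or.inr (Or.inr ?_)
      rw [← h]
      rfl
    · refine Or.inr (Or.inl ?_)
      have h2 : X.rev (v, s) = e := by rw [h, X.rev_rev]
      exact h2
  intro v s
  refine ⟨key v s, fun h => ?_⟩
  have h2 := key _ _ h
  rw [X.nb_bar, X.bar_bar] at h2
  exact h2

theorem fr_tail {O : Edges H S} {e : H × S} {l : List (H × S)} (h : Fr X O (e :: l)) :
    ¬ O e.1 e.2 ∧ (∀ e' ∈ l, e ≠ e') ∧ Fr X (X.addE O e) l := by
  obtain ⟨h1, h2⟩ := h
  rw [List.pairwise_cons] at h2
  refine ⟨h1 e (List.mem_cons_self ..), fun e' he' => (h2.1 e' he').1, ?_, h2.2⟩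
  intro e' he' ha
  rcases ha with ha | ha | ha
  · exact h1 e' (List.mem_cons_of_mem _ he') ha
  · exact (h2.1 e' he').1 ha.symm
  · exact (h2.1 e' he').2 ha

end

/-- PACKET RINV. -/
theorem rinv (hU : A_UPM) : B_RINV := by
  intro H S L _ _ X P u l
  induction l with
  | nil =>
    intro O f _ _ _
    refine ⟨fun e' O' f' h => ?_, fun e' h => ?_, fun e' O' f' O'' f'' h => ?_⟩
    · exact False.elim h
    · simp at h
    · exact False.elim h
  | cons e l ih =>
    intro O f hS hM hF
    obtain ⟨hc, hne, hF'⟩ := fr_tail X hF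
    have hM' := hU H S L X P O e.1 e.2 (u e) f hS hc hM
    obtain ⟨i1, i2, i3⟩ := ih (X.addE O e) (X.Upd P O e.1 e.2 (u e) f) (sym_addE X hS e) hM' hF'
    refine ⟨?_, ?_, ?_⟩
    · intro e' O' f' h
      rcases h with ⟨rfl, rfl, rfl⟩ | h
      · exact ⟨List.mem_cons_self .., hS, hM, hc, fun _ _ h => h, fun _ _ h => Or.inl h⟩
      · obtain ⟨j1, j2, j3, j4, j5, j6⟩ := i1 e' O' f' h
        refine ⟨List.mem_cons_of_mem _ j1, j2, j3, j4, fun z r h => j5 z r (Or.inl h), ?_⟩
        intro z r hz
        rcases j6 z r hz with (hz | hz | hz) | hz | hz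
        · exact Or.inl hz
        · right; left
          rw [hz]
          exact List.mem_cons_self ..
        · right; right
          rw [hz, X.rev_rev]
          exact List.mem_cons_self ..
        · right; left
          exact List.mem_cons_of_mem _ hz
        · right; right
          exact List.mem_cons_of_mem _ hz
    · intro e' he'
      rcases List.mem_cons.1 he' with rfl | he'
      · exact ⟨O, f, Or.inl ⟨rfl, rfl, rfl⟩⟩
      · obtain ⟨O', f', h⟩ := i2 e' he'
        exact ⟨O', f', Or.inr h⟩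
    · intro e' O' f' O'' f'' h1 h2
      rcases h1 with ⟨a1, a2, a3⟩ | h1
      · rcases h2 with ⟨b1, b2, b3⟩ | h2
        · exact ⟨a2.trans b2.symm, a3.trans b3.symm⟩
        · exact absurd a1.symm (hne _ (i1 _ _ _ h2).1)
      · rcases h2 with ⟨b1, b2, b3⟩ | h2
        · exact absurd b1.symm (hne _ (i1 _ _ _ h1).1)
        · exact i3 e' O' f' O'' f'' h1 h2

end Pool.Agent.Helper57.OE
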