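import Pool.Agent.Helper57.OE.AT

/-!
# Project OE (MP_fc0446_an): packet THRU (helper57)
-/

namespace Pool.Agent.Helper57.OE

open Pool.Agent.Helper73.OE Pool.Agent.Helper73.OE.Sys Pool.Agent.Helper75.OE

/-- PACKET THRU. -/
theorem thru : B_THRU := by
  intro H S L _ X P O f e C z a b hM hS hcl hd1 hd2 hC hop hab
  refine ⟨hd1, hd2, ?_⟩
  intro p' y' h
  have hO := hop p' y' h
  refine ⟨hO, ?_⟩
  have hzw : z ≠ X.nb e.1 e.2 := by
    intro he
    rw [he, X.dist_self] at hd2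
    omega
  have hclw : ¬ O (X.nb e.1 e.2) (X.bar e.2) := fun h2 => hcl ((hS e.1 e.2).2 h2)
  have hy : X.tau (f e.1 e.2) ≠ f (X.nb e.1 e.2) (X.bar e.2) := fun h2 =>
    hzw (at_stop X O f hclw h2 h)
  have hy' := at_ne X O f hM h hy
  have hsp : (f z).symm y' ≠ p' := by
    intro h2
    apply hy'
    rw [← h2, Equiv.apply_symm_apply]
  have hin : ∀ {x : H}, X.OnRun O f (X.nb e.1 e.2) (X.bar e.2) (X.tau (f e.1 e.2)) x → x ∈ C :=
    fun hx => hC (Or.inr (Or.inr hx))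
  have h1 : (f z).symm y' = a ∨ (f z).symm y' = b :=
    hab _ (hin (at_onRun X O f (at_next X O f h hO)))
  have h2 : p' = a ∨ p' = b := by
    rcases at_prev X O f h with ⟨h3, -, -⟩ | ⟨z1, p1, y1, h3, -, h5, h6, -⟩
    · exact absurd h3 hzw
    · apply hab
      rw [h5, h6, X.nb_bar]
      exact hin (at_onRun X O f h3)
  rcases h1 with h1 | h1 <;> rcases h2 with h2 | h2
  · exact absurd (h1.trans h2.symm) hsp
  · exact Or.inr ⟨h2, h1⟩
  · exact Or.inl ⟨h2, h1⟩
  · exact absurd (h1.trans h2.symm) hsp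

end Pool.Agent.Helper57.OE
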